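import Pool.Agent.MP07f90a.Defs

/-!
# Basic facts on admissible families

A criterion for admissibility, the upper bound `k ^ 2 * m n k ≤ n * n.choose (k - 1)`, and a
counting lemma for random maps.
-/

open Finset

namespace Pool.Agent.MP07f90a

theorem le_m {n k : ℕ} {H : Finset (Finset (Fin n))} (h : Admissible n k H) :
    H.card ≤ m n k := by
  classical
  unfold m
  exact Finset.le_sup (f := Finset.card) (by simp [h])

theorem exists_m (n k : ℕ) : ∃ H : Finset (Finset (Fin n)), Admissible n k H ∧ H.card = m n k := by
  classical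
  have hne : (univ.filter (fun H : Finset (Finset (Fin n)) => Admissible n k H)).Nonempty := by
    refine ⟨∅, ?_⟩
    simp [Admissible]
  obtain ⟨H, hH, he⟩ := Finset.exists_mem_eq_sup _ hne Finset.card
  refine ⟨H, ?_, ?_⟩
  · simpa using hH
  · unfold m; rw [he]

theorem filter_card {n k : ℕ} {H : Finset (Finset (Fin n))} (hk : ∀ E ∈ H, E.card = k)
    {S : Finset (Fin n)} (hS : S.card = k + 1) :
    (H.filter (fun E => E ⊆ S)).card = (S.filter (fun x => S.erase x ∈ H)).card := by
  symm
  refine Finset.card_bij (fun x _ => S.erase x) ?_ ?_ ?_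
  · intro x hx
    simp only [mem_filter] at hx ⊢
    exact ⟨hx.2, Finset.erase_subset _ _⟩
  · intro x hx y hy hxy
    simp only [mem_filter] at hx hy
    by_contra hne
    have : y ∈ S.erase x := by simp [hy.1, Ne.symm hne]
    rw [hxy] at this
    simp at this
  · intro E hE
    simp only [mem_filter] at hE
    have hc : (S \ E).card = 1 := by
      rw [Finset.card_sdiff_of_subset hE.2, hS, hk E hE.1]; omega
    obtain ⟨x, hx⟩ := Finset.card_eq_one.mp hc
    have hxS : x ∈ S ∧ x ∉ E := by
      have : x ∈ S \ E := by rw [hx]; simp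
      simpa using this
    have hEq : S.erase x = E := by
      symm
      apply Finset.eq_of_subset_of_card_le
      · intro y hy
        rw [Finset.mem_erase]
        refine ⟨?_, hE.2 hy⟩
        rintro rfl; exact hxS.2 hy
      · rw [Finset.card_erase_of_mem hxS.1, hS, hk E hE.1]; omega
    refine ⟨x, ?_, hEq⟩
    simp only [mem_filter]
    exact ⟨hxS.1, by rw [hEq]; exact hE.1⟩

/-- A convenient criterion. -/
theorem admissible_of {n k : ℕ} {H : Finset (Finset (Fin n))} (hk : ∀ E ∈ H, E.card = k)
    (h : ∀ S : Finset (Fin n), S.card = k + 1 → ∀ x ∈ S, S.erase x ∈ H →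
      ∃ y ∈ S, y ≠ x ∧ ∀ z ∈ S, (S.erase z ∈ H ↔ z = x ∨ z = y)) :
    Admissible n k H := by
  refine ⟨hk, fun S hS => ?_⟩
  rw [filter_card hk hS]
  by_cases hx : ∃ x ∈ S, S.erase x ∈ H
  · right
    obtain ⟨x, hxS, hxH⟩ := hx
    obtain ⟨y, hyS, hyx, hz⟩ := h S hS x hxS hxH
    have : (S.filter (fun x => S.erase x ∈ H)) = {x, y} := by
      ext z
      simp only [mem_filter, mem_insert, mem_singleton]
      constructor
      · rintro ⟨h1, h2⟩; exact (hz z h1).1 h2
      · rintro (rfl | rfl)
        · exact ⟨hxS, hxH⟩
        · exact ⟨hyS, (hz z hyS).2 (Or.inr rfl)⟩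
    rw [this, Finset.card_pair (Ne.symm hyx)]
  · left
    push Not at hx
    rw [Finset.card_eq_zero, Finset.filter_eq_empty_iff]
    intro x hxS
    exact hx x hxS

/-! ### The upper bound -/

theorem upper (n k : ℕ) : k ^ 2 * m n k ≤ n * n.choose (k - 1) := by
  classical
  obtain ⟨H, hH, hc⟩ := exists_m n k
  rw [← hc]
  -- codegree
  set d : Finset (Fin n) → ℕ := fun D => (univ.filter (fun v => v ∉ D ∧ insert v D ∈ H)).card with hd
  set P := (univ : Finset (Fin n)).powersetCard (k - 1) with hP
  -- incidence sum
  have key : ∀ E ∈ H, ∑ y ∈ E, d (E.erase y) = n := by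
    intro E hE
    have hEk := hH.1 E hE
    -- d (E.erase y) counts v with v = y or v ∉ E with swap in H
    have h1 : ∀ y ∈ E, d (E.erase y) =
        1 + (univ.filter (fun v => v ∉ E ∧ insert v (E.erase y) ∈ H)).card := by
      intro y hy
      have : (univ.filter (fun v => v ∉ E.erase y ∧ insert v (E.erase y) ∈ H)) =
          insert y (univ.filter (fun v => v ∉ E ∧ insert v (E.erase y) ∈ H)) := by
        ext v
        simp only [mem_filter, mem_univ, true_and, mem_insert, mem_erase, not_and]
        constructor
        · rintro ⟨h1, h2⟩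
          by_cases hv : v = y
          · left; exact hv
          · right; exact ⟨h1 hv, h2⟩
        · rintro (rfl | ⟨h1, h2⟩)
          · refine ⟨fun h => absurd rfl h, ?_⟩
            rw [Finset.insert_erase hy]; exact hE
          · exact ⟨fun _ => h1, h2⟩
      rw [hd]
      simp only
      rw [this, Finset.card_insert_of_notMem]
      · omega
      · simp [hy]
    rw [Finset.sum_congr rfl h1, Finset.sum_add_distrib]
    simp only [sum_const, smul_eq_mul, mul_one]
    -- swap the double sum
    have h2 : ∑ y ∈ E, (univ.filter (fun v => v ∉ E ∧ insert v (E.erase y) ∈ H)).card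
        = ∑ v ∈ univ.filter (fun v => v ∉ E), (E.filter (fun y => insert v (E.erase y) ∈ H)).card := by
      simp only [Finset.card_filter, Finset.sum_filter]
      rw [Finset.sum_comm]
      apply Finset.sum_congr rfl
      intro v _
      by_cases hv : v ∈ E
      · simp [hv]
      · simp [hv]
    rw [h2]
    have h3 : ∀ v ∈ univ.filter (fun v => v ∉ E), (E.filter (fun y => insert v (E.erase y) ∈ H)).card = 1 := by
      intro v hv
      simp only [mem_filter, mem_univ, true_and] at hv
      have hS : (insert v E).card = k + 1 := by rw [Finset.card_insert_of_notMem hv, hEk]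
      have h4 := hH.2 _ hS
      rw [filter_card hH.1 hS] at h4
      have h5 : ((insert v E).filter (fun x => (insert v E).erase x ∈ H)) =
          insert v (E.filter (fun y => insert v (E.erase y) ∈ H)) := by
        ext z
        simp only [mem_filter, mem_insert]
        constructor
        · rintro ⟨rfl | hz, h⟩
          · left; rfl
          · right
            refine ⟨hz, ?_⟩
            have hzv : v ≠ z := by rintro rfl; exact hv hz
            rw [Finset.erase_insert_of_ne hzv] at h
            exact h
        · rintro (rfl | ⟨hz, h⟩)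
          · refine ⟨Or.inl rfl, ?_⟩
            rw [Finset.erase_insert hv]; exact hE
          · refine ⟨Or.inr hz, ?_⟩
            have hzv : v ≠ z := by rintro rfl; exact hv hz
            rw [Finset.erase_insert_of_ne hzv]; exact h
      rw [h5, Finset.card_insert_of_notMem (by simp [hv])] at h4
      omega
    rw [Finset.sum_congr rfl h3]
    simp only [sum_const, smul_eq_mul, mul_one]
    have h6 : (univ.filter (fun v => v ∉ E)).card = n - E.card := by
      rw [← Finset.compl_filter]
      simp [Finset.card_compl]
    have h7 : E.card ≤ n := by simpa using Finset.card_le_univ E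
    rw [h6]; omega
  -- general double counting
  have dc : ∀ f : Finset (Fin n) → ℕ, ∑ E ∈ H, ∑ y ∈ E, f (E.erase y) = ∑ D ∈ P, d D * f D := by
    intro f
    have h1 : ∀ D ∈ P, d D * f D = ∑ v ∈ univ.filter (fun v => v ∉ D ∧ insert v D ∈ H), f D := by
      intro D _
      simp [hd]
    rw [Finset.sum_congr rfl h1]
    rw [Finset.sum_sigma', Finset.sum_sigma']
    refine Finset.sum_bij' (fun x _ => ⟨x.1.erase x.2, x.2⟩) (fun x _ => ⟨insert x.2 x.1, x.2⟩) ?_ ?_ ?_ ?_ ?_
    · rintro ⟨E, y⟩ hx
      simp only [mem_sigma] at hx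
      simp only [mem_sigma, hP, mem_powersetCard, subset_univ, true_and, mem_filter, mem_univ,
        mem_erase, ne_eq, not_true, false_and, not_false_eq_true]
      refine ⟨?_, ?_⟩
      · rw [Finset.card_erase_of_mem hx.2, hH.1 E hx.1]
      · rw [Finset.insert_erase hx.2]; exact hx.1
    · rintro ⟨D, v⟩ hx
      simp only [mem_sigma, mem_filter, mem_univ, true_and] at hx
      simp only [mem_sigma, mem_insert, true_or, and_true]
      exact hx.2.2
    · rintro ⟨E, y⟩ hx
      simp only [mem_sigma] at hx
      simp only [Finset.insert_erase hx.2]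
    · rintro ⟨D, v⟩ hx
      simp only [mem_sigma, mem_filter, mem_univ, true_and] at hx
      simp only [Finset.erase_insert hx.2.1]
    · rintro ⟨E, y⟩ hx
      rfl
  have e1 : ∑ D ∈ P, d D * d D = n * H.card := by
    rw [← dc d, Finset.sum_congr rfl key]
    simp [mul_comm]
  have e2 : ∑ D ∈ P, d D = k * H.card := by
    have := dc (fun _ => 1)
    simp only [mul_one] at this
    rw [← this]
    simp only [sum_const, smul_eq_mul, mul_one]
    rw [Finset.sum_congr rfl hH.1]
    simp [mul_comm]
  have cs : (∑ D ∈ P, d D) ^ 2 ≤ P.card * ∑ D ∈ P, d D ^ 2 := by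
    have h := sq_sum_le_card_mul_sum_sq (s := P) (f := fun D => (d D : ℤ))
    exact_mod_cast h
  rw [e2] at cs
  have e3 : ∑ D ∈ P, d D ^ 2 = n * H.card := by
    rw [← e1]; apply Finset.sum_congr rfl; intro D _; ring
  rw [e3] at cs
  have hPc : P.card = n.choose (k - 1) := by rw [hP]; simp
  rw [hPc] at cs
  rcases Nat.eq_zero_or_pos H.card with h0 | h0
  · rw [h0]; simp
  · have : (k ^ 2 * H.card) * H.card ≤ (n * n.choose (k - 1)) * H.card := by
      calc (k ^ 2 * H.card) * H.card = (k * H.card) ^ 2 := by ring
        _ ≤ n.choose (k - 1) * (n * H.card) := cs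
        _ = (n * n.choose (k - 1)) * H.card := by ring
    exact Nat.le_of_mul_le_mul_right this h0



theorem restrict_count {α β ι : Type*} [Fintype α] [DecidableEq α] [Fintype β] [DecidableEq β]
    [Fintype ι] [DecidableEq ι] (e : ι → α) (he : Function.Injective e)
    (Q : (ι → β) → Prop) [DecidablePred Q] [DecidablePred fun f : α → β => Q (f ∘ e)] :
    (univ.filter (fun f : α → β => Q (f ∘ e))).card * Fintype.card β ^ Fintype.card ι
      = (univ.filter Q).card * Fintype.card β ^ Fintype.card α := by
  classical
  have h1 : Fintype.card β ^ Fintype.card ι = (univ : Finset (ι → β)).card := by simp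
  have h2 : Fintype.card β ^ Fintype.card α = (univ : Finset (α → β)).card := by simp
  rw [h1, h2, ← Finset.card_product, ← Finset.card_product]
  refine Finset.card_nbij' (fun x => (x.1 ∘ e, Function.extend e x.2 x.1))
    (fun y => (Function.extend e y.1 y.2, y.2 ∘ e)) ?_ ?_ ?_ ?_
  · rintro ⟨f, h⟩ hx
    simpa using hx
  · rintro ⟨g, f⟩ hx
    simp only [coe_product, coe_filter, mem_univ, true_and, coe_univ, Set.mem_prod,
      Set.mem_ofPred_eq, Set.mem_univ, and_true] at hx ⊢
    have : Function.extend e g f ∘ e = g := by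
      funext i; simp [he.extend_apply]
    rw [this]; exact hx
  · rintro ⟨f, h⟩ _
    simp only [Prod.mk.injEq]
    refine ⟨?_, ?_⟩
    · funext a
      by_cases ha : ∃ i, e i = a
      · obtain ⟨i, rfl⟩ := ha
        simp [he.extend_apply]
      · simp [Function.extend_apply' _ _ _ ha]
    · funext i; simp [he.extend_apply]
  · rintro ⟨g, f⟩ _
    simp only [Prod.mk.injEq]
    refine ⟨?_, ?_⟩
    · funext i; simp [he.extend_apply]
    · funext a
      by_cases ha : ∃ i, e i = a
      · obtain ⟨i, rfl⟩ := ha
        simp [he.extend_apply]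
      · simp [Function.extend_apply' _ _ _ ha]

end Pool.Agent.MP07f90a
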