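import Mathlib

/-!
# Families of `k`-sets in which every `(k+1)`-set spans exactly `0` or exactly `2` members

The two definitions of the problem: admissible families and the extremal function `m n k`.
-/

open Finset

namespace Pool.Agent.MP07f90a

/-- Admissible families: all members have size `k`, and every `(k+1)`-set spans exactly
`0` or exactly `2` members. -/
def Admissible (n k : ℕ) (H : Finset (Finset (Fin n))) : Prop :=
  (∀ E ∈ H, E.card = k) ∧
  ∀ S : Finset (Fin n), S.card = k + 1 →
    ((H.filter (fun E => E ⊆ S)).card = 0 ∨ (H.filter (fun E => E ⊆ S)).card = 2)

open Classical in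
/-- `m n k` is the largest size of an admissible `k`-uniform family on `n` points. -/
noncomputable def m (n k : ℕ) : ℕ :=
  (univ.filter (fun H : Finset (Finset (Fin n)) => Admissible n k H)).sup Finset.card

end Pool.Agent.MP07f90a
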